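import Pool.Agent.H27.ND.Defs
import Pool.Agent.H87.NR.Gen
import Pool.Agent.H87.NR.Sim
import Pool.Agent.H9.AK.Sim

/-!
# Weight-monodromy near a semistable degeneration: from matrices to linear maps

The theorems of `Pool.Agent.H87.NR` (abstract finite-dimensional spaces) give the theorem for the
definitions of `Pool.Agent.H27.ND.Defs` (spaces `Ω ^ n`, matrices).
-/

set_option autoImplicit false
set_option linter.unusedSectionVars false

open Matrix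

noncomputable section

namespace Pool.ND

variable {q : ℕ} {Ω : Type} [Field Ω] [CharZero Ω]

theorem pow_app {n : ℕ} (A : Matrix (Fin n) (Fin n) Ω) (k : ℕ) (x : Fin n → Ω) :
    (A.mulVecLin ^ k) x = (A ^ k) *ᵥ x := by
  induction k generalizing x with
  | zero => simp
  | succ k ih =>
    rw [pow_succ, pow_succ, Module.End.mul_apply, ih, mulVecLin_apply, mulVec_mulVec]

theorem pow_zero_lin {n : ℕ} {A : Matrix (Fin n) (Fin n) Ω} (h : A ^ n = 0) :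
    IsNilpotent (A.mulVecLin : Module.End Ω (Fin n → Ω)) := by
  refine ⟨n, LinearMap.ext fun x => ?_⟩
  rw [pow_app, h, zero_mulVec]
  rfl

theorem inj_of_det {n : ℕ} {A : Matrix (Fin n) (Fin n) Ω} (h : A.det ≠ 0) (x : Fin n → Ω)
    (hx : A *ᵥ x = 0) : x = 0 := by
  by_contra h0
  exact h (exists_mulVec_eq_zero_iff.1 ⟨x, h0, hx⟩)

theorem rel_app {n : ℕ} {F N : Matrix (Fin n) (Fin n) Ω} (h : N * F = (q : Ω) • (F * N))
    (x : Fin n → Ω) : N *ᵥ (F *ᵥ x) = (q : Ω) • F *ᵥ (N *ᵥ x) := by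
  rw [mulVec_mulVec, mulVec_mulVec, h, smul_mulVec]

/-- the abstract object -/
def fnm {n : ℕ} (F N : Matrix (Fin n) (Fin n) Ω) (h : Good q F N) : Pool.H9.WMC.FN q Ω where
  V := Fin n → Ω
  F := F.mulVecLin
  N := N.mulVecLin
  F_inj := fun x hx => inj_of_det h.1 x hx
  N_nilp := pow_zero_lin h.2.2.1
  NF := fun x => rel_app h.2.2.2 x
  mixed := fun α x hx h' => h.2.1 α x hx h'

/-- the abstract object -/
def fn (M : FN q Ω) : Pool.H9.WMC.FN q Ω := fnm M.F M.N M.good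

/-- the subspaces -/
def subm {n : ℕ} (U : Set (Fin n → Ω)) (h : Linear U) : Submodule Ω (Fin n → Ω) where
  carrier := U
  zero_mem' := h.1
  add_mem' := fun {x y} hx hy => by simpa using h.2 1 x hx y hy
  smul_mem' := fun a x hx => by simpa using h.2 a x hx 0 h.1

theorem Mono.step {n : ℕ} {N : Matrix (Fin n) (Fin n) Ω} {L : ℤ → Set (Fin n → Ω)}
    (h : Mono N L) : Monotone L := by
  refine monotone_int_of_le_succ fun j => ?_
  have := (h.1 (j + 1)).2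
  rwa [add_sub_cancel_right] at this

/-- the filtration by submodules -/
def fil {n : ℕ} {N : Matrix (Fin n) (Fin n) Ω} {L : ℤ → Set (Fin n → Ω)} (h : Mono N L) (j : ℤ) :
    Submodule Ω (Fin n → Ω) := subm (L j) (h.1 j).1

theorem mem_fil {n : ℕ} {N : Matrix (Fin n) (Fin n) Ω} {L : ℤ → Set (Fin n → Ω)} (h : Mono N L)
    (j : ℤ) (x : Fin n → Ω) : x ∈ fil h j ↔ x ∈ L j := Iff.rfl

theorem mono_conv {n : ℕ} {N : Matrix (Fin n) (Fin n) Ω} {L : ℤ → Set (Fin n → Ω)}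
    (h : Mono N L) : Pool.H73.WM.IsMonodromyFiltration N.mulVecLin (fil h) := by
  obtain ⟨h1, ⟨a, ha⟩, ⟨b, hb⟩, h4, h5⟩ := id h
  refine ⟨fun i j hij => h.step hij, ⟨a, ?_⟩, ⟨b, ?_⟩, fun j x hx => h4 j x hx,
    fun k x hx h6 => (h5 k).1 x hx ?_, fun k y hy => ?_⟩
  · rw [eq_bot_iff]
    intro x hx
    rw [mem_fil, ha] at hx
    exact hx
  · rw [eq_top_iff]
    intro x _
    rw [mem_fil, hb]
    trivial
  · rw [pow_app] at h6
    exact h6
  · obtain ⟨x, hx, z, hz, hxz⟩ := (h5 k).2 y hy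
    refine ⟨x, hx, ?_⟩
    rw [pow_app, hxz, add_sub_cancel_left]
    exact hz

theorem mono_conv' {n : ℕ} {N : Matrix (Fin n) (Fin n) Ω} {L : ℤ → Submodule Ω (Fin n → Ω)}
    (h : Pool.H73.WM.IsMonodromyFiltration N.mulVecLin L) : Mono N fun j => (L j : Set _) := by
  obtain ⟨h1, ⟨a, ha⟩, ⟨b, hb⟩, h4, h5, h6⟩ := h
  refine ⟨fun j => ⟨⟨(L j).zero_mem, fun c x hx y hy => (L j).add_mem ((L j).smul_mem c hx) hy⟩,
    h1 (by omega)⟩, ⟨a, by beta_reduce; rw [ha]; rfl⟩, ⟨b, by beta_reduce; rw [hb]; rfl⟩, fun j x hx => h4 j x hx,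
    fun k => ⟨fun x hx h => h5 k x hx ?_, fun y hy => ?_⟩⟩
  · rw [pow_app]
    exact h
  · obtain ⟨x, hx, h⟩ := h6 k y hy
    rw [pow_app] at h
    exact ⟨x, hx, _, h, (add_sub_cancel _ _).symm⟩

theorem wm_conv {n : ℕ} {F N : Matrix (Fin n) (Fin n) Ω} (h : Good q F N) (w : ℤ) :
    WM q F N w ↔ (fnm F N h).WM w := by
  constructor
  · rintro ⟨L, h1, h2, h3⟩
    exact ⟨fil h1, mono_conv h1, h2, fun j x hx hx' α hα => h3 j x hx hx' α _ hα
      (add_sub_cancel _ _).symm⟩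
  · intro h0
    obtain ⟨L, h1, h2, h3⟩ : ∃ L : ℤ → Submodule Ω (Fin n → Ω),
        Pool.H73.WM.IsMonodromyFiltration N.mulVecLin L ∧ (∀ j, ∀ x ∈ L j, F *ᵥ x ∈ L j) ∧
        ∀ j, ∀ x ∈ L j, x ∉ L (j - 1) → ∀ α : Ω, F *ᵥ x - α • x ∈ L (j - 1) →
          IsWeil q α (w + j) := h0
    refine ⟨fun j => (L j : Set (Fin n → Ω)), mono_conv' h1, h2,
      fun j x hx hx' α y hy hxy => h3 j x hx hx' α ?_⟩
    rw [hxy, add_sub_cancel_left]
    exact hy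

theorem Hom.app {n n' : ℕ} {F N : Matrix (Fin n) (Fin n) Ω} {F' N' : Matrix (Fin n') (Fin n') Ω}
    {B : Matrix (Fin n') (Fin n) Ω} (h : Hom F N F' N' B) (x : Fin n → Ω) :
    B *ᵥ (F *ᵥ x) = F' *ᵥ (B *ᵥ x) ∧ B *ᵥ (N *ᵥ x) = N' *ᵥ (B *ᵥ x) := by
  rw [mulVec_mulVec, mulVec_mulVec, h.1, mulVec_mulVec, mulVec_mulVec, h.2]
  exact ⟨rfl, rfl⟩

theorem hom_conv {M M' : FN q Ω} {B : Matrix (Fin M'.n) (Fin M.n) Ω}
    (h : Hom M.F M.N M'.F M'.N B) : (fn M).IsHom (fn M') B.mulVecLin :=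
  ⟨fun x => (h.app x).1, fun x => (h.app x).2⟩

theorem Iso.eqv {n n' : ℕ} {F N : Matrix (Fin n) (Fin n) Ω} {F' N' : Matrix (Fin n') (Fin n') Ω}
    (h : Iso F N F' N') : ∃ e : (Fin n → Ω) ≃ₗ[Ω] (Fin n' → Ω), ∀ x,
      e (F *ᵥ x) = F' *ᵥ e x ∧ e (N *ᵥ x) = N' *ᵥ e x := by
  obtain ⟨B, B', h1, h2, h3⟩ := h
  exact ⟨LinearEquiv.ofLinearMap B.mulVecLin B'.mulVecLin
    (by rw [← mulVecLin_mul, h1, mulVecLin_one]) (by rw [← mulVecLin_mul, h2, mulVecLin_one]),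
    fun x => h3.app x⟩

theorem sum_conv {M M' P : FN q Ω} (h : Sum M.F M.N M'.F M'.N P.F P.N) :
    Pool.H87.NR.IsSum (fn M) (fn M') (fn P) := by
  obtain ⟨B, B', hB, hB', hP⟩ := h
  let g : ((Fin M.n → Ω) × (Fin M'.n → Ω)) →ₗ[Ω] (Fin P.n → Ω) :=
    B.mulVecLin.coprod B'.mulVecLin
  have hb : Function.Bijective g := by
    rw [Function.bijective_iff_existsUnique]
    intro z
    exact hP z
  refine ⟨LinearEquiv.ofBijective g hb, fun x y => ?_, fun x y => ?_⟩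
  · change P.F *ᵥ (B *ᵥ x + B' *ᵥ y) = B *ᵥ (M.F *ᵥ x) + B' *ᵥ (M'.F *ᵥ y)
    rw [mulVec_add, (hB.app x).1, (hB'.app y).1]
  · change P.N *ᵥ (B *ᵥ x + B' *ᵥ y) = B *ᵥ (M.N *ᵥ x) + B' *ᵥ (M'.N *ᵥ y)
    rw [mulVec_add, (hB.app x).2, (hB'.app y).2]

theorem built_conv {S : ℤ → FN q Ω → Prop} {S' : ℤ → Pool.H9.WMC.FN q Ω → Prop}
    (hS : ∀ w M, S w M → S' w (fn M)) {w : ℤ} {M : FN q Ω} (h : Built S w M) :
    Pool.H87.NR.Built S' w (fn M) := by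
  induction h with
  | of w M h => exact .of (hS w M h)
  | zero w M h =>
    refine .zero fun x => ?_
    have : IsEmpty (Fin M.n) := by rw [h]; infer_instance
    exact Subsingleton.elim (α := Fin M.n → Ω) _ _
  | twist w M M' h hM ih =>
    obtain ⟨e, he⟩ := Iso.eqv hM
    refine .twist ih ⟨e, fun x => ?_, fun x => (he x).2.symm⟩
    change M'.F *ᵥ e x = (q : Ω) • e (M.F *ᵥ x)
    rw [← (he x).1, smul_mulVec, map_smul]
  | sum w A B M hA hB hM ihA ihB => exact .sum ihA ihB (sum_conv hM)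
  | homology w A B C M hA hB hC hM ihA ihB ihC =>
    obtain ⟨f, g, hf, hg, hgf, b, hb1, hb2⟩ := hM
    refine .homology ihA ihB ihC (f := f.mulVecLin) (g := g.mulVecLin)
      ⟨hom_conv hf, hom_conv hg, fun x => ?_, ?_⟩
    · change g *ᵥ (f *ᵥ x) = 0
      rw [mulVec_mulVec, hgf, zero_mulVec]
    · refine ⟨b.mulVecLin.comp (Submodule.subtype _), ⟨fun y => ?_, fun x => ?_⟩,
        fun x x' hx => ?_, fun x x' hx => ?_⟩
      · obtain ⟨x, hx, hxy⟩ := hb1 y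
        exact ⟨⟨x, hx⟩, hxy⟩
      · exact (hb2 x.1 x.2).2.2.1
      · have h1 := (hb2 x.1 x.2).2.2.2.1
        change b *ᵥ x'.1 = M.F *ᵥ (b *ᵥ x.1)
        rw [← h1]
        exact congrArg (fun u => b *ᵥ u) hx
      · have h1 := (hb2 x.1 x.2).2.2.2.2
        change b *ᵥ x'.1 = M.N *ᵥ (b *ᵥ x.1)
        rw [← h1]
        exact congrArg (fun u => b *ᵥ u) hx

variable {i : ℕ} (D : Degeneration q Ω i)

/-- the projection -/
def prj (r : ℤ) : Matrix (Fin (D.G r).n) (Fin D.n) Ω := (D.quo r).choose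

theorem prj_spec (r : ℤ) :
    (∀ y : Fin (D.G r).n → Ω, ∃ x ∈ D.L r, prj D r *ᵥ x = y) ∧
      ∀ x ∈ D.L r, D.F *ᵥ x ∈ D.L r ∧ D.N *ᵥ x ∈ D.L r ∧
        (prj D r *ᵥ x = 0 ↔ x ∈ D.L (r - 1)) ∧
        prj D r *ᵥ (D.F *ᵥ x) = (D.G r).F *ᵥ (prj D r *ᵥ x) ∧
        prj D r *ᵥ (D.N *ᵥ x) = (D.G r).N *ᵥ (prj D r *ᵥ x) :=
  (D.quo r).choose_spec

/-- the limit -/
def lim : Pool.H87.NR.Lim q Ω where
  V := Fin D.n → Ω
  F := D.F.mulVecLin
  Nv := D.N.mulVecLin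
  Nh := D.Nh.mulVecLin
  F_inj := fun x hx => inj_of_det D.good.1 x hx
  mixed := fun α x hx h => D.good.2.1 α x hx h
  Nv_nilp := pow_zero_lin D.good.2.2.1
  Nh_nilp := pow_zero_lin D.goodh.2.2.1
  comm := fun x => by
    change D.Nh *ᵥ (D.N *ᵥ x) = D.N *ᵥ (D.Nh *ᵥ x)
    rw [mulVec_mulVec, mulVec_mulVec, D.comm]
  NvF := fun x => rel_app D.good.2.2.2 x
  NhF := fun x => rel_app D.goodh.2.2.2 x
  L := fil D.mono
  mono := mono_conv D.mono
  L_F := fun r x hx => ((prj_spec D r).2 x hx).1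
  L_Nv := fun r x hx => ((prj_spec D r).2 x hx).2.1
  G := fun r => fn (D.G r)
  π := fun r => (prj D r).mulVecLin.comp (Submodule.subtype _)
  quot := fun r => by
    refine ⟨fun y => ?_, fun x => ?_⟩
    · obtain ⟨x, hx, hxy⟩ := (prj_spec D r).1 y
      exact ⟨⟨x, hx⟩, hxy⟩
    · exact ((prj_spec D r).2 x.1 x.2).2.2.1
  π_F := fun r x x' hx => by
    have h1 := ((prj_spec D r).2 x.1 x.2).2.2.2.1
    change prj D r *ᵥ x'.1 = (D.G r).F *ᵥ (prj D r *ᵥ x.1)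
    rw [← h1]
    exact congrArg (fun u => prj D r *ᵥ u) hx
  π_N := fun r x x' hx => by
    have h1 := ((prj_spec D r).2 x.1 x.2).2.2.2.2
    change prj D r *ᵥ x'.1 = (D.G r).N *ᵥ (prj D r *ᵥ x.1)
    rw [← h1]
    exact congrArg (fun u => prj D r *ᵥ u) hx

theorem near_conv (s : D.P) :
    Pool.H9.AK.FN.Sim (fn (D.fib s)) ((lim D).fib (D.val s : Ω)) := by
  obtain ⟨a, b, c, ha, hb, hab, hc, h⟩ := D.near s
  obtain ⟨e, he⟩ := h.eqv
  refine ⟨a, b, c, e, ha, hb, hab, hc, fun x => ?_, fun x => ?_⟩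
  · change e (((D.fib s).F.mulVecLin ^ a) x) = (D.F.mulVecLin ^ b) (e x)
    rw [pow_app, pow_app, (he x).1]
  · change e ((D.fib s).N *ᵥ x) = c • ((D.val s : Ω) • (D.Nh *ᵥ e x) + D.N *ᵥ e x)
    rw [(he x).2, smul_mulVec, add_mulVec, smul_mulVec]

theorem main (hq : 1 < q) [IsAlgClosed Ω]
    (h : (∀ (z : D.Z) (j : ℕ), i ≤ j + D.m z → j + D.m z ≤ i + 2 →
        WM q (D.H z j).F (D.H z j).N j) ∨
      ∃ s : D.P, WM (D.q' s) (D.fib s).F (D.fib s).N i) :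
    ∃ B : Finset ℚ, ∀ s : D.P, D.val s ∉ B → WM (D.q' s) (D.fib s).F (D.fib s).N i := by
  have hfin : {c : Ω | ¬ ((lim D).fib c).WM i}.Finite := by
    rcases h with h | ⟨s, hs⟩
    · refine (lim D).finite_exceptions hq fun r => ?_
      rw [Pool.WMC.wmp_thm hq]
      have h0 := built_conv (S' := fun w M => ∃ (z : D.Z) (j : ℕ), (j : ℤ) = w ∧ i ≤ j + D.m z ∧
        j + D.m z ≤ i + 2 ∧ M = fn (D.H z j)) (fun w M hM => by
          obtain ⟨z, j, h1, h2, h3, rfl⟩ := hM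
          exact ⟨z, j, h1, h2, h3, rfl⟩) (D.wss r)
      refine h0.pur hq ?_
      rintro w M ⟨z, j, rfl, h1, h2, rfl⟩
      exact (Pool.WMC.wmp_thm hq _ _).1 ((wm_conv (D.H z j).good j).1 (h z j h1 h2))
    · exact (lim D).finite_of_one hq (c0 := (D.val s : Ω))
        ((Pool.H87.NR.sim_symm (near_conv D s)).wm hq (D.one_lt s)
          ((wm_conv (D.fib s).good i).1 hs))
  have hinj : Function.Injective (fun r : ℚ => (r : Ω)) := Rat.cast_injective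
  have hB : {r : ℚ | ¬ ((lim D).fib (r : Ω)).WM i}.Finite := hfin.preimage hinj.injOn
  refine ⟨hB.toFinset, fun s hs => ?_⟩
  have h1 : ((lim D).fib (D.val s : Ω)).WM i := by
    by_contra h2
    exact hs (by rw [Set.Finite.mem_toFinset]; exact h2)
  exact (wm_conv (D.fib s).good i).2 ((near_conv D s).wm (D.one_lt s) hq h1)

end Pool.ND

end
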