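import Mathlib

/-!
# Weight-monodromy near a semistable degeneration: definitions

`K` is a `p`-adic field whose residue field has `q` elements and `Ω` an algebraically closed field of
characteristic zero (of coefficients).  A cohomology group is a space `Ω ^ n` with a Frobenius
operator `F` and a monodromy operator `N` (`FN`), both given by matrices.
-/

set_option autoImplicit false

open Matrix

namespace Pool.ND

variable {Ω : Type} [Field Ω] [CharZero Ω]

/-- `α` is a Weil number of weight `w`: it is algebraic over `ℚ` and every complex root of its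
minimal polynomial has absolute value `q ^ (w / 2)`. -/
def IsWeil (q : ℕ) (α : Ω) (w : ℤ) : Prop :=
  IsAlgebraic ℚ α ∧
    ∀ z : ℂ, Polynomial.aeval z (minpoly ℚ α) = 0 → ‖z‖ = (q : ℝ) ^ ((w : ℝ) / 2)

/-- `F` is invertible, its eigenvalues are Weil numbers, `N` is nilpotent and `N F = q F N`. -/
def Good (q : ℕ) {n : ℕ} (F N : Matrix (Fin n) (Fin n) Ω) : Prop :=
  F.det ≠ 0 ∧ (∀ (α : Ω) (x : Fin n → Ω), x ≠ 0 → F *ᵥ x = α • x → ∃ w : ℤ, IsWeil q α w) ∧
    N ^ n = 0 ∧ N * F = (q : Ω) • (F * N)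

/-- The space `Ω ^ n` with a Frobenius operator `F` and a monodromy operator `N`. -/
structure FN (q : ℕ) (Ω : Type) [Field Ω] [CharZero Ω] where
  /-- The dimension. -/
  n : ℕ
  /-- Frobenius. -/
  F : Matrix (Fin n) (Fin n) Ω
  /-- Monodromy. -/
  N : Matrix (Fin n) (Fin n) Ω
  good : Good q F N

/-- `U` is a linear subspace of `Ω ^ n`. -/
def Linear {n : ℕ} (U : Set (Fin n → Ω)) : Prop :=
  0 ∈ U ∧ ∀ a : Ω, ∀ x ∈ U, ∀ y ∈ U, a • x + y ∈ U

/-- `L` is the monodromy filtration of the nilpotent operator `N`: an increasing filtration by linear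
subspaces, zero for small and everything for large indices, with `N L_j ⊆ L_{j-2}` and
`N ^ k : L_k / L_{k-1} → L_{-k} / L_{-k-1}` bijective for all `k ≥ 0`. -/
def Mono {n : ℕ} (N : Matrix (Fin n) (Fin n) Ω) (L : ℤ → Set (Fin n → Ω)) : Prop :=
  (∀ j : ℤ, Linear (L j) ∧ L (j - 1) ⊆ L j) ∧ (∃ j : ℤ, L j = {0}) ∧ (∃ j : ℤ, L j = Set.univ) ∧
    (∀ j : ℤ, ∀ x ∈ L j, N *ᵥ x ∈ L (j - 2)) ∧
    ∀ k : ℕ, (∀ x ∈ L k, (N ^ k) *ᵥ x ∈ L (-k - 1) → x ∈ L (k - 1)) ∧
      ∀ y ∈ L (-k), ∃ x ∈ L k, ∃ z ∈ L (-k - 1), y = (N ^ k) *ᵥ x + z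

/-- Weight-monodromy in degree `w`: on the `j`-th graded piece of the monodromy filtration (which is
stable under `F`) every eigenvalue `α` of `F` is a Weil number of weight `w + j`. -/
def WM (q : ℕ) {n : ℕ} (F N : Matrix (Fin n) (Fin n) Ω) (w : ℤ) : Prop :=
  ∃ L : ℤ → Set (Fin n → Ω), Mono N L ∧ (∀ j : ℤ, ∀ x ∈ L j, F *ᵥ x ∈ L j) ∧
    ∀ j : ℤ, ∀ x ∈ L j, x ∉ L (j - 1) → ∀ (α : Ω), ∀ y ∈ L (j - 1), F *ᵥ x = α • x + y →
      IsWeil q α (w + j)

/-- `B` maps the operators `F` and `N` of `Ω ^ n` to the operators `F'` and `N'` of `Ω ^ n'`. -/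
def Hom {n n' : ℕ} (F N : Matrix (Fin n) (Fin n) Ω) (F' N' : Matrix (Fin n') (Fin n') Ω)
    (B : Matrix (Fin n') (Fin n) Ω) : Prop :=
  B * F = F' * B ∧ B * N = N' * B

/-- `Ω ^ n` with `F` and `N` is isomorphic to `Ω ^ n'` with `F'` and `N'`. -/
def Iso {n n' : ℕ} (F N : Matrix (Fin n) (Fin n) Ω) (F' N' : Matrix (Fin n') (Fin n') Ω) : Prop :=
  ∃ (B : Matrix (Fin n') (Fin n) Ω) (B' : Matrix (Fin n) (Fin n') Ω),
    B * B' = 1 ∧ B' * B = 1 ∧ Hom F N F' N' B

/-- `(F, N)` and `(F', N')` are isomorphic after replacing the Frobenius operators by positive powers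
and the monodromy operators by nonzero multiples. -/
def Sim {n n' : ℕ} (q : ℕ) (F N : Matrix (Fin n) (Fin n) Ω) (q' : ℕ)
    (F' N' : Matrix (Fin n') (Fin n') Ω) : Prop :=
  ∃ (a b : ℕ) (c : Ω), 0 < a ∧ 0 < b ∧ q ^ a = q' ^ b ∧ c ≠ 0 ∧ Iso (F ^ a) N (F' ^ b) (c • N')

/-- `Ω ^ n'` with `F'` and `N'` is the Tate twist of `Ω ^ n` with `F` and `N`. -/
def Twist (q : ℕ) {n n' : ℕ} (F N : Matrix (Fin n) (Fin n) Ω) (F' N' : Matrix (Fin n') (Fin n') Ω) :
    Prop :=
  Iso ((q : Ω) • F) N F' N'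

/-- `(F'', N'')` is the direct sum of `(F, N)` and `(F', N')`. -/
def Sum {n n' n'' : ℕ} (F N : Matrix (Fin n) (Fin n) Ω) (F' N' : Matrix (Fin n') (Fin n') Ω)
    (F'' N'' : Matrix (Fin n'') (Fin n'') Ω) : Prop :=
  ∃ (B : Matrix (Fin n'') (Fin n) Ω) (B' : Matrix (Fin n'') (Fin n') Ω),
    Hom F N F'' N'' B ∧ Hom F' N' F'' N'' B' ∧
      ∀ z : Fin n'' → Ω, ∃! p : (Fin n → Ω) × (Fin n' → Ω), B *ᵥ p.1 + B' *ᵥ p.2 = z

/-- `Ω ^ n'` with `F'` and `N'` is the quotient `U / U'` of subspaces `U' ⊆ U` of `Ω ^ n`, with the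
operators induced by `F` and `N`. -/
def Quo {n n' : ℕ} (F N : Matrix (Fin n) (Fin n) Ω) (U U' : Set (Fin n → Ω))
    (F' N' : Matrix (Fin n') (Fin n') Ω) : Prop :=
  ∃ B : Matrix (Fin n') (Fin n) Ω, (∀ y : Fin n' → Ω, ∃ x ∈ U, B *ᵥ x = y) ∧
    ∀ x ∈ U, F *ᵥ x ∈ U ∧ N *ᵥ x ∈ U ∧ (B *ᵥ x = 0 ↔ x ∈ U') ∧
      B *ᵥ (F *ᵥ x) = F' *ᵥ (B *ᵥ x) ∧ B *ᵥ (N *ᵥ x) = N' *ᵥ (B *ᵥ x)

/-- `(F, N)` is the homology of a complex `(F₁, N₁) → (F₂, N₂) → (F₃, N₃)`. -/
def Homology {n n₁ n₂ n₃ : ℕ} (F₁ N₁ : Matrix (Fin n₁) (Fin n₁) Ω)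
    (F₂ N₂ : Matrix (Fin n₂) (Fin n₂) Ω) (F₃ N₃ : Matrix (Fin n₃) (Fin n₃) Ω)
    (F N : Matrix (Fin n) (Fin n) Ω) : Prop :=
  ∃ (f : Matrix (Fin n₂) (Fin n₁) Ω) (g : Matrix (Fin n₃) (Fin n₂) Ω),
    Hom F₁ N₁ F₂ N₂ f ∧ Hom F₂ N₂ F₃ N₃ g ∧ g * f = 0 ∧
      Quo F₂ N₂ {x | g *ᵥ x = 0} {x | ∃ y : Fin n₁ → Ω, f *ᵥ y = x} F N

/-- The objects, with a weight, which are built from the objects in `S` (`S w M` means that `M` is an
object of weight `w` in the given class) by Tate twists, finite direct sums and homology of complexes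
of objects of the same weight. -/
inductive Built {q : ℕ} (S : ℤ → FN q Ω → Prop) : ℤ → FN q Ω → Prop
  | of (w : ℤ) (M : FN q Ω) : S w M → Built S w M
  | zero (w : ℤ) (M : FN q Ω) : M.n = 0 → Built S w M
  | twist (w : ℤ) (M M' : FN q Ω) : Built S w M → Twist q M.F M.N M'.F M'.N → Built S (w + 2) M'
  | sum (w : ℤ) (A B M : FN q Ω) : Built S w A → Built S w B → Sum A.F A.N B.F B.N M.F M.N →
      Built S w M
  | homology (w : ℤ) (A B C M : FN q Ω) : Built S w A → Built S w B → Built S w C →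
      Homology A.F A.N B.F B.N C.F C.N M.F M.N → Built S w M

/-- The data given, in degree `i`, by a strictly semistable degeneration, over a `p`-adic field `K`
whose residue field has `q` elements, of smooth projective varieties.

* `Z`, `m`, `H`: the strata (`z` is a connected component of an intersection of `m z ≥ 1` components
  of the special fibre `X_b`) and their cohomology groups;
* `n`, `F`, `N`, `Nh`: the limit of the `i`-th cohomology groups, with the Frobenius operator, the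
  monodromy operator `N` of the field and the monodromy operator `Nh` of the punctured disc;
* `L`, `G`: the monodromy filtration of `Nh` and its graded pieces (the `E_2`-terms of the weight
  spectral sequence), which are built from the cohomology groups `H^j` of the strata `z` with
  `i ≤ j + m z ≤ i + 2`;
* `P`, `val`, `q'`, `fib`: the points `s`, with values in finite extensions `K'` of `K`, of a
  punctured disc around `b`, the valuation of the coordinate of `s` normalised by `K`, the number of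
  elements of the residue field of `K'`, and the `i`-th cohomology group of the fibre at `s`, which
  is, up to powers and multiples, the limit with the monodromy operator `(val s) Nh + N`. -/
structure Degeneration (q : ℕ) (Ω : Type) [Field Ω] [CharZero Ω] (i : ℕ) where
  /-- The strata. -/
  Z : Type
  /-- The number of components. -/
  m : Z → ℕ
  /-- The cohomology groups of the strata. -/
  H : Z → ℕ → FN q Ω
  /-- The dimension of the limit. -/
  n : ℕ
  /-- Frobenius. -/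
  F : Matrix (Fin n) (Fin n) Ω
  /-- The monodromy of the field. -/
  N : Matrix (Fin n) (Fin n) Ω
  /-- The monodromy of the punctured disc. -/
  Nh : Matrix (Fin n) (Fin n) Ω
  good : Good q F N
  goodh : Good q F Nh
  comm : Nh * N = N * Nh
  /-- The monodromy filtration of `Nh`. -/
  L : ℤ → Set (Fin n → Ω)
  mono : Mono Nh L
  /-- The graded pieces. -/
  G : ℤ → FN q Ω
  quo : ∀ r : ℤ, Quo F N (L r) (L (r - 1)) (G r).F (G r).N
  wss : ∀ r : ℤ, Built (fun (w : ℤ) (M : FN q Ω) => ∃ (z : Z) (j : ℕ), (j : ℤ) = w ∧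
    i ≤ j + m z ∧ j + m z ≤ i + 2 ∧ M = H z j) (i + r) (G r)
  /-- The points. -/
  P : Type
  /-- The valuations of the coordinates. -/
  val : P → ℚ
  /-- The cardinalities of the residue fields. -/
  q' : P → ℕ
  one_lt : ∀ s : P, 1 < q' s
  /-- The cohomology groups of the fibres. -/
  fib : (s : P) → FN (q' s) Ω
  near : ∀ s : P, Sim (q' s) (fib s).F (fib s).N q F ((val s : Ω) • Nh + N)

end Pool.ND
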